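import Mathlib

namespace Pool.Agent.P.MP_c44e76_an

open Topology

/-- `t` is a trajectory of the point `y` for the relation `G`. -/
def IsTrajectory {X : Type*} (G : Set (X × X)) (y : X) (t : ℕ → X) : Prop :=
  t 0 = y ∧ ∀ n, (t n, t (n + 1)) ∈ G

/-- `(V,i)`-pseudo-orbit, for `i = 1` (all successors) and `i = 2` (some successor). -/
def IsPseudoOrbit {X : Type*} (G V : Set (X × X)) (i : ℕ) (x : ℕ → X) : Prop :=
  (∀ n, ∃ y, (x n, y) ∈ G) ∧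
  (i = 1 → ∀ n y, (x n, y) ∈ G → (x (n + 1), y) ∈ V) ∧
  (i = 2 → ∀ n, ∃ y, (x n, y) ∈ G ∧ (x (n + 1), y) ∈ V)

/-- The legal point `y` `(U,j)`-shadows the sequence `x`. -/
def Shadows {X : Type*} (G U : Set (X × X)) (j : ℕ) (y : X) (x : ℕ → X) : Prop :=
  (∃ t, IsTrajectory G y t) ∧
  (j = 1 → ∀ t, IsTrajectory G y t → ∀ n, (x n, t n) ∈ U) ∧
  (j = 2 → ∃ t, IsTrajectory G y t ∧ ∀ n, (x n, t n) ∈ U)

/-- The `(i,j)`-shadowing property; entourages are the neighbourhoods of the diagonal. -/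
def HasShadowing {X : Type*} [TopologicalSpace X] (G : Set (X × X)) (i j : ℕ) : Prop :=
  ∀ U ∈ 𝓝ˢ (Set.diagonal X), ∃ V ∈ 𝓝ˢ (Set.diagonal X),
    ∀ x : ℕ → X, IsPseudoOrbit G V i x → ∃ y, Shadows G U j y x

end Pool.Agent.P.MP_c44e76_an
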