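import Pool.Agent.P.MP_c44e76_an.Defs

namespace Pool.Agent.P.MP_c44e76_an

open Topology Set Uniformity

/-- every neighbourhood of the diagonal contains a closed one whose square root exists -/
lemma exists_small {X : Type*} [TopologicalSpace X] [CompactSpace X] [T2Space X]
    {U : Set (X × X)} (hU : U ∈ 𝓝ˢ (Set.diagonal X)) :
    ∃ C : Set (X × X), IsClosed C ∧ C ⊆ U ∧ ∃ W ∈ 𝓝ˢ (Set.diagonal X),
      ∀ a b c, (a, b) ∈ W → (b, c) ∈ W → (a, c) ∈ C := by
  letI u : UniformSpace X := uniformSpaceOfCompactR1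
  have hu : 𝓤 X = 𝓝ˢ (Set.diagonal X) := rfl
  rw [← hu] at hU ⊢
  obtain ⟨C, ⟨hC, hCc⟩, hCU⟩ := uniformity_hasBasis_closed.mem_iff.1 hU
  obtain ⟨W, hW, hWC⟩ := comp_mem_uniformity_sets hC
  exact ⟨C, hCc, hCU, W, hW, fun a b c h1 h2 => hWC ⟨b, h1, h2⟩⟩

lemma swap_mem {X : Type*} [TopologicalSpace X] {U : Set (X × X)}
    (hU : U ∈ 𝓝ˢ (Set.diagonal X)) : Prod.swap ⁻¹' U ∈ 𝓝ˢ (Set.diagonal X) := by
  rw [mem_nhdsSet_iff_forall] at hU ⊢
  rintro ⟨a, b⟩ hab
  have h : a = b := hab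
  subst h
  exact continuous_swap.continuousAt.preimage_mem_nhds (hU _ hab)

lemma main22 {X : Type*} [TopologicalSpace X] [CompactSpace X] [T2Space X]
    (G : Set (X × X)) (hG : IsClosed G) (hD : Set.diagonal X ⊆ G)
    (h : HasShadowing G 2 2) :
    ∀ U ∈ 𝓝ˢ (Set.diagonal X), ∃ V ∈ 𝓝ˢ (Set.diagonal X),
      ∀ x y : ℕ → X, (∀ n, (y n, x n) ∈ G ∧ (x (n + 1), y n) ∈ V) →
        ∃ w : ℕ → X, (∀ n, (w (n + 1), w n) ∈ G) ∧ ∀ n, (x n, w n) ∈ U := by
  intro U hU
  obtain ⟨C, hCc, hCU, W, hW, hWC⟩ := exists_small hU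
  obtain ⟨V₁, hV₁, hsh⟩ := h W hW
  have hrefl : ∀ {S : Set (X × X)}, S ∈ 𝓝ˢ (Set.diagonal X) → ∀ a, (a, a) ∈ S :=
    fun hS a => subset_of_mem_nhdsSet hS (mem_diagonal a)
  refine ⟨Prod.swap ⁻¹' V₁ ∩ W, Filter.inter_mem (swap_mem hV₁) hW, fun x y hxy => ?_⟩
  -- finite stage
  have hfin : ∀ N : ℕ, ∃ w : ℕ → X, (∀ n < N, (w (n + 1), w n) ∈ G) ∧
      ∀ n ≤ N, (x n, w n) ∈ C := by
    intro N
    let s : ℕ → X := fun j => if j < N then y (N - 1 - j) else x 0
    have hstep : ∀ j, ∃ z, (s j, z) ∈ G ∧ (s (j + 1), z) ∈ V₁ := by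
      intro j
      by_cases h1 : j + 1 < N
      · have h0 : j < N := by omega
        refine ⟨x (N - 1 - j), ?_, ?_⟩
        · simp only [s, if_pos h0]; exact (hxy _).1
        · simp only [s, if_pos h1]
          have := (hxy (N - 1 - (j + 1))).2.1
          have e : N - 1 - (j + 1) + 1 = N - 1 - j := by omega
          rw [e] at this
          exact this
      · by_cases h0 : j < N
        · refine ⟨x 0, ?_, ?_⟩
          · simp only [s, if_pos h0]
            have e : N - 1 - j = 0 := by omega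
            rw [e]; exact (hxy 0).1
          · simp only [s, if_neg h1]; exact hrefl hV₁ _
        · refine ⟨x 0, ?_, ?_⟩
          · simp only [s, if_neg h0]; exact hD (mem_diagonal _)
          · simp only [s, if_neg h1]; exact hrefl hV₁ _
    have hpo : IsPseudoOrbit G V₁ 2 s :=
      ⟨fun n => (hstep n).imp fun _ hz => hz.1, fun h => absurd h (by norm_num), fun _ => hstep⟩
    obtain ⟨p, -, -, h2⟩ := hsh s hpo
    obtain ⟨t, ⟨-, ht⟩, hst⟩ := h2 rfl
    refine ⟨fun n => t (N - n), fun n hn => ?_, fun n hn => ?_⟩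
    · have := ht (N - (n + 1))
      have e : N - (n + 1) + 1 = N - n := by omega
      rw [e] at this
      exact this
    · rcases n with _ | n
      · have := hst N
        simp only [s, lt_irrefl, if_false] at this
        exact hWC _ _ _ (hrefl hW _) this
      · have h0 : N - (n + 1) < N := by omega
        have := hst (N - (n + 1))
        simp only [s, if_pos h0] at this
        have e : N - 1 - (N - (n + 1)) = n := by omega
        rw [e] at this
        exact hWC _ _ _ (hxy n).2.2 this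
  -- compactness
  let K : ℕ → Set (ℕ → X) := fun N =>
    {w | (∀ n < N, (w (n + 1), w n) ∈ G) ∧ ∀ n ≤ N, (x n, w n) ∈ C}
  have hKc : ∀ N, IsClosed (K N) := by
    intro N
    have e : K N = (⋂ n, ⋂ (_ : n < N), (fun w : ℕ → X => (w (n + 1), w n)) ⁻¹' G) ∩
        (⋂ n, ⋂ (_ : n ≤ N), (fun w : ℕ → X => (x n, w n)) ⁻¹' C) := by
      ext w; simp [K]
    rw [e]
    refine IsClosed.inter ?_ ?_
    · exact isClosed_iInter fun n => isClosed_iInter fun _ => hG.preimage (by fun_prop)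
    · exact isClosed_iInter fun n => isClosed_iInter fun _ => hCc.preimage (by fun_prop)
  obtain ⟨w, hw⟩ := IsCompact.nonempty_iInter_of_sequence_nonempty_isCompact_isClosed K
    (fun N w hw => ⟨fun n hn => hw.1 n (by omega), fun n hn => hw.2 n (by omega)⟩)
    (fun N => hfin N) (hKc 0).isCompact hKc
  rw [mem_iInter] at hw
  exact ⟨w, fun n => (hw (n + 1)).1 n (by omega), fun n => hCU ((hw n).2 n le_rfl)⟩

theorem main {X : Type*} [TopologicalSpace X] [CompactSpace X] [T2Space X]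
    (G : Set (X × X)) (hG : IsClosed G) (hD : Set.diagonal X ⊆ G)
    (h : HasShadowing G 2 2) (i : ℕ) (hi : i = 1 ∨ i = 2) :
    HasShadowing {p : X × X | (p.2, p.1) ∈ G} i 2 := by
  intro U hU
  obtain ⟨V, hV, hsh⟩ := main22 G hG hD h U hU
  refine ⟨V, hV, fun x hx => ?_⟩
  have hy : ∀ n, ∃ y, (y, x n) ∈ G ∧ (x (n + 1), y) ∈ V := by
    intro n
    rcases hi with hi | hi
    · obtain ⟨y, hy⟩ := hx.1 n
      exact ⟨y, hy, hx.2.1 hi n y hy⟩
    · exact hx.2.2 hi n
  choose y hy using hy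
  obtain ⟨w, hw1, hw2⟩ := hsh x y hy
  have ht : IsTrajectory {p : X × X | (p.2, p.1) ∈ G} (w 0) w := ⟨rfl, hw1⟩
  exact ⟨w 0, ⟨w, ht⟩, fun h => absurd h (by norm_num), fun _ => ⟨w, ht, hw2⟩⟩

end Pool.Agent.P.MP_c44e76_an
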