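import Pool.Agent.P.MP_c44e76_an.Defs

/-! Shadowing for closed transitive relations, by Higman's lemma. -/

namespace Pool.Agent.P.MP_c44e76_an.Tr

open Topology Set Uniformity Filter Relation

variable {X : Type*}

/-- one step of a pseudo-orbit -/
def step (G V : Set (X × X)) (a b : X) : Prop := ∃ z, (a, z) ∈ G ∧ (b, z) ∈ V

/-- the word `w` is traced within `W` by points that are pairwise related by `R` -/
def Real (W R : Set (X × X)) (w : List X) : Set (ℕ → X) :=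
  {p | (∀ i t, w[i]? = some t → (t, p i) ∈ W) ∧ ∀ i j, i < j → j < w.length → (p i, p j) ∈ R}

lemma Real.sub {W R : Set (X × X)} {w w' : List X} (h : w'.Sublist w)
    (hw : (Real W R w).Nonempty) : (Real W R w').Nonempty := by
  obtain ⟨f, hf⟩ := List.sublist_iff_exists_orderEmbedding_getElem?_eq.1 h
  obtain ⟨p, h1, h2⟩ := hw
  refine ⟨p ∘ f, fun i t e => h1 _ t (hf i ▸ e), fun i j hij hj => h2 _ _ (f.strictMono hij) ?_⟩
  have := hf j
  rw [List.getElem?_eq_getElem hj] at this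
  exact (List.getElem?_eq_some_iff.1 this.symm).1

lemma Real.mono {W R R' : Set (X × X)} (h : R ⊆ R') (w : List X) : Real W R w ⊆ Real W R' w :=
  fun _ hp => ⟨hp.1, fun i j a b => h (hp.2 i j a b)⟩

/-- an inward set reached by chains -/
lemma build [UniformSpace X] {G V : Set (X × X)} (hV : V ∈ 𝓤 X) (x : X) :
    ∃ A : Set X, IsClosed A ∧ (∀ b ∈ A, TransGen (step G V) x b) ∧
      ∀ a b, a = x ∨ a ∈ A → (a, b) ∈ G → b ∈ interior A := by
  obtain ⟨W, hW, hWo, hWs, hWV⟩ := comp_open_symm_mem_uniformity_sets hV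
  let B : Set X := {b | ∃ a z, (a = x ∨ TransGen (step G V) x a) ∧ (a, z) ∈ G ∧ (b, z) ∈ W}
  have hB : IsOpen B := by
    simp only [B, ofPred_exists]
    exact isOpen_iUnion fun a => isOpen_iUnion fun z => isOpen_const.inter
      (isOpen_const.inter (hWo.preimage (f := fun b => (b, z)) (by fun_prop)))
  have hcl : ∀ b ∈ closure B, TransGen (step G V) x b := fun b hb => by
    obtain ⟨c, a1, a, z, a2, a3, a4⟩ :=
      mem_closure_iff_nhds.1 hb _ (UniformSpace.ball_mem_nhds b hW)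
    have : step G V a b := ⟨z, a3, hWV ⟨c, a1, a4⟩⟩
    rcases a2 with rfl | a2
    exacts [.single this, a2.tail this]
  exact ⟨closure B, isClosed_closure, hcl, fun a b ha hb =>
    interior_maximal subset_closure hB ⟨a, b, ha.imp_right (hcl a), hb, refl_mem_uniformity hW⟩⟩

variable [TopologicalSpace X]

lemma isClosed_Real {W R : Set (X × X)} (hW : IsClosed W) (hR : IsClosed R) (w : List X) :
    IsClosed (Real W R w) := by
  simp only [Real, ofPred_and, ofPred_forall]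
  exact (isClosed_iInter fun i => isClosed_iInter fun t => isClosed_iInter fun _ =>
    hW.preimage (f := fun p : ℕ → X => (t, p i)) (by fun_prop)).inter
    (isClosed_iInter fun i => isClosed_iInter fun j => isClosed_iInter fun _ =>
      isClosed_iInter fun _ => hR.preimage (f := fun p : ℕ → X => (p i, p j)) (by fun_prop))

/-- stabilisation: a directed family of closed relations with intersection inside `G` -/
lemma stable [CompactSpace X] {ι : Type*} [Nonempty ι] {D : ι → Set (X × X)}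
    (hd : Directed (· ⊇ ·) D) (hc : ∀ v, IsClosed (D v)) {G W : Set (X × X)} (hW : IsClosed W)
    (hG : ∀ p, (∀ v, p ∈ D v) → p ∈ G) {T : Set X} (hT : T.Finite) :
    ∃ v, ∀ w : List X, (∀ t ∈ w, t ∈ T) → (Real W (D v) w).Nonempty → (Real W G w).Nonempty := by
  have h1 : ∀ w : List X, ¬(Real W G w).Nonempty → ∃ v, ¬(Real W (D v) w).Nonempty := by
    intro w hw
    by_contra hn
    push Not at hn
    obtain ⟨p, hp⟩ := IsCompact.nonempty_iInter_of_directed_nonempty_isCompact_isClosed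
      (fun v => Real W (D v) w)
      (fun a b => let ⟨c, h1, h2⟩ := hd a b; ⟨c, Real.mono h1 w, Real.mono h2 w⟩) hn
      (fun v => (isClosed_Real hW (hc v) w).isCompact) fun v => isClosed_Real hW (hc v) w
    rw [mem_iInter] at hp
    exact hw ⟨p, (hp (Classical.arbitrary ι)).1, fun i j a b => hG _ fun v => (hp v).2 i j a b⟩
  by_contra hn
  push Not at hn
  choose w hw1 hw2 hw3 using hn
  have h2 : ∀ v, ∃ v', D v' ⊆ D v ∧ ¬(Real W (D v') (w v)).Nonempty := fun v => by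
    obtain ⟨u, hu⟩ := h1 (w v) (by rw [hw3]; exact not_nonempty_empty)
    obtain ⟨c, a, b⟩ := hd v u
    exact ⟨c, a, fun h => hu (h.mono (Real.mono b _))⟩
  choose nx n1 n2 using h2
  let s : ℕ → ι := fun k => nx^[k] (Classical.arbitrary ι)
  have hs : ∀ k, s (k + 1) = nx (s k) := fun k => Function.iterate_succ_apply' _ _ _
  have ha : Antitone fun k => D (s k) := antitone_nat_of_succ_le fun k => by rw [hs]; exact n1 _
  obtain ⟨i, j, hij, h⟩ := (PartiallyWellOrderedOn.partiallyWellOrderedOn_sublistForall₂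
    (· = ·) hT.partiallyWellOrderedOn).exists_lt (f := fun k => w (s k)) fun k => hw1 _
  obtain ⟨l, e, h⟩ := List.sublistForall₂_iff.1 h
  rw [List.forall₂_eq_eq_eq] at e
  subst e
  refine n2 (s i) ((Real.sub h (hw2 (s j))).mono (Real.mono ?_ _))
  rw [← hs]
  exact ha hij

variable [CompactSpace X] {G : Set (X × X)}

lemma isCompact_image (hG : IsClosed G) {A : Set X} (hA : IsClosed A) :
    IsCompact {b | ∃ a ∈ A, (a, b) ∈ G} := by
  have : {b | ∃ a ∈ A, (a, b) ∈ G} = Prod.snd '' (G ∩ Prod.fst ⁻¹' A) := by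
    ext b; simp [and_comm]
  rw [this]
  exact (hG.inter (hA.preimage continuous_fst)).isCompact.image continuous_snd

variable [T2Space X]

/-- fine chains are trapped by an inward set -/
lemma trap (hG : IsClosed G) {x : X} {A : Set X} (hA : IsClosed A)
    (hin : ∀ a b, a = x ∨ a ∈ A → (a, b) ∈ G → b ∈ interior A) :
    ∃ N ∈ 𝓝 x, ∃ V ∈ 𝓝ˢ (Set.diagonal X), ∀ a, a ∈ A ∨ a ∈ N → ∀ b,
      TransGen (step G V) a b → b ∈ interior A := by
  let u : UniformSpace X := uniformSpaceOfCompactR1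
  have hu : 𝓤 X = 𝓝ˢ (Set.diagonal X) := rfl
  have hO : IsClosed {a | ∃ b ∈ (interior A)ᶜ, (b, a) ∈ Prod.swap ⁻¹' G} :=
    (isCompact_image (hG.preimage continuous_swap) isOpen_interior.isClosed_compl).isClosed
  obtain ⟨N, hN, hNc, hNs⟩ := exists_mem_nhds_isClosed_subset (hO.isOpen_compl.mem_nhds
    (x := x) fun ⟨b, h1, h2⟩ => h1 (hin x b (Or.inl rfl) h2))
  obtain ⟨V, hV, hVA⟩ := lebesgue_number_of_compact_open
    (isCompact_image hG (hA.union hNc)) isOpen_interior (by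
      rintro b ⟨a, ha | ha, hb⟩
      · exact hin a b (Or.inr ha) hb
      · by_contra h1
        exact hNs ha ⟨b, h1, hb⟩)
  refine ⟨N, hN, Prod.swap ⁻¹' V, hu ▸ symm_le_uniformity hV, fun a ha b h => ?_⟩
  induction h with
  | single h => exact hVA.2 _ ⟨a, ha, h.choose_spec.1⟩ h.choose_spec.2
  | tail _ h ih =>
    exact hVA.2 _ ⟨_, Or.inl (interior_subset ih), h.choose_spec.1⟩ h.choose_spec.2

theorem shadow_of (hG : IsClosed G)
    (h : ∀ x y, (x, y) ∉ G → ∃ A : Set X, IsClosed A ∧ y ∉ A ∧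
      ∀ a b, a = x ∨ a ∈ A → (a, b) ∈ G → b ∈ interior A) : HasShadowing G 2 2 := by
  let u : UniformSpace X := uniformSpaceOfCompactR1
  have hu : 𝓤 X = 𝓝ˢ (Set.diagonal X) := rfl
  intro U hU
  rw [← hu] at hU ⊢
  obtain ⟨W₀, hW₀, hs₀, hWU⟩ := comp_symm_of_uniformity hU
  obtain ⟨W, hW, hWc, hWW⟩ := mem_uniformity_isClosed hW₀
  obtain ⟨T, hT, hTc⟩ := totallyBounded_iff_subset.1 (isCompact_univ (X := X)).totallyBounded _
    (symm_le_uniformity hW)
  let D : {V // V ∈ 𝓤 X} → Set (X × X) := fun V => closure {p | TransGen (step G V.1) p.1 p.2}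
  have hm : ∀ {V V' : {V // V ∈ 𝓤 X}}, V.1 ⊆ V'.1 → D V ⊆ D V' := fun e =>
    closure_mono fun p hp => TransGen.mono (r := step G _) (p := step G _)
      (fun _ _ h => h.imp fun _ k => ⟨k.1, e k.2⟩) _ _ hp
  have : Nonempty {V // V ∈ 𝓤 X} := ⟨⟨univ, univ_mem⟩⟩
  obtain ⟨V, hV⟩ := stable (D := D) (G := G)
    (fun a b => ⟨⟨a.1 ∩ b.1, inter_mem a.2 b.2⟩, hm inter_subset_left, hm inter_subset_right⟩)
    (fun _ => isClosed_closure) hWc (by
      rintro ⟨x, y⟩ hp
      by_contra hn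
      obtain ⟨A, hA, hy, hin⟩ := h x y hn
      obtain ⟨N, hN, V, hV, hVA⟩ := trap hG hA hin
      obtain ⟨⟨a, b⟩, ⟨h1, h2⟩, h3⟩ := mem_closure_iff_nhds.1 (hp ⟨V, hu ▸ hV⟩) _
        (prod_mem_nhds hN (hA.isOpen_compl.mem_nhds hy))
      exact h2 (interior_subset (hVA a (Or.inr h1) b h3)))
    hTc.1
  refine ⟨V.1, V.2, fun x hx => ?_⟩
  choose τ h1 h2 using fun n => mem_iUnion₂.1 (hTc.2 (mem_univ (x n)))
  have hc : ∀ i j, i < j → TransGen (step G V.1) (x i) (x j) := fun i j hij => by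
    induction hij with
    | refl => exact .single (hx.2.2 rfl i)
    | step _ ih => exact ih.tail (hx.2.2 rfl _)
  let K : ℕ → Set (ℕ → X) := fun N => Real W G ((List.range N).map τ)
  have hK : ∀ N p, p ∈ K N ↔ (∀ i < N, (τ i, p i) ∈ W) ∧ ∀ i j, i < j → j < N → (p i, p j) ∈ G :=
    fun N p => by simp [K, Real, List.getElem?_eq_some_iff]
  have hKc : ∀ N, IsClosed (K N) := fun N => isClosed_Real hWc hG _
  obtain ⟨t, ht⟩ := IsCompact.nonempty_iInter_of_sequence_nonempty_isCompact_isClosed K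
    (fun N p hp => (hK _ _).2 ⟨fun i a => ((hK _ _).1 hp).1 i (by omega),
      fun i j a b => ((hK _ _).1 hp).2 i j a (by omega)⟩)
    (fun N => hV _ (by simpa using fun i _ => h1 i) ⟨x, by
      simpa [List.getElem?_eq_some_iff] using fun i _ => h2 i,
      fun i j a _ => subset_closure (hc i j a)⟩) (hKc 0).isCompact hKc
  rw [mem_iInter] at ht
  have htr : IsTrajectory G (t 0) t :=
    ⟨rfl, fun n => ((hK _ _).1 (ht (n + 2))).2 n (n + 1) (by omega) (by omega)⟩
  exact ⟨t 0, ⟨t, htr⟩, fun e => absurd e (by norm_num), fun _ => ⟨t, htr, fun n =>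
    hWU ⟨τ n, hs₀ (hWW (h2 n)), hWW (((hK _ _).1 (ht (n + 1))).1 n (by omega))⟩⟩⟩

theorem of_shadow (hG : IsClosed G) (hT : ∀ a b c, (a, b) ∈ G → (b, c) ∈ G → (a, c) ∈ G)
    (hD : ∀ a, ∃ b, (a, b) ∈ G) (h : HasShadowing G 2 2) {x y : X} (hxy : (x, y) ∉ G) :
    ∃ A : Set X, IsClosed A ∧ y ∉ A ∧ ∀ a b, a = x ∨ a ∈ A → (a, b) ∈ G → b ∈ interior A := by
  let u : UniformSpace X := uniformSpaceOfCompactR1
  have hu : 𝓤 X = 𝓝ˢ (Set.diagonal X) := rfl
  obtain ⟨O₁, h1, O₂, h2, hO⟩ := mem_nhds_prod_iff.1 (hG.isOpen_compl.mem_nhds hxy)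
  obtain ⟨U₁, k1, l1⟩ := UniformSpace.mem_nhds_iff.1 h1
  obtain ⟨U₂, k2, l2⟩ := UniformSpace.mem_nhds_iff.1 h2
  obtain ⟨V, hV, hsh⟩ := h (U₁ ∩ U₂) (hu ▸ inter_mem k1 k2)
  rw [← hu] at hV
  choose g hg using hD
  have hseq : ∀ a, TransGen (step G V) a y →
      ∃ s : ℕ → X, s 0 = a ∧ (∀ n, step G V (s n) (s (n + 1))) ∧ ∃ N, s (N + 1) = y := by
    intro a ha
    induction ha using TransGen.head_induction_on with
    | @single a h =>
      refine ⟨fun n => n.casesOn a fun m => g^[m] y, rfl, fun n => ?_, 0, rfl⟩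
      cases n with
      | zero => exact h
      | succ m =>
        exact ⟨_, hg _, by dsimp only; rw [Function.iterate_succ_apply']; exact refl_mem_uniformity hV⟩
    | @head a c h _ ih =>
      obtain ⟨s, e, h1, N, h2⟩ := ih
      refine ⟨fun n => n.casesOn a s, rfl, fun n => ?_, N + 1, h2⟩
      cases n with
      | zero => exact (show step G V a (s 0) from e ▸ h)
      | succ m => exact h1 m
  have hy : ¬TransGen (step G V) x y := fun e => by
    obtain ⟨s, e, a1, N, a2⟩ := hseq x e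
    obtain ⟨p, -, -, a3⟩ := hsh s ⟨fun n => ⟨_, hg _⟩, fun e => absurd e (by norm_num), fun _ => a1⟩
    obtain ⟨t, ⟨-, ht⟩, a4⟩ := a3 rfl
    have : ∀ n, (t 0, t (n + 1)) ∈ G := fun n => by
      induction n with
      | zero => exact ht 0
      | succ n ih => exact hT _ _ _ ih (ht _)
    exact hO (a := (t 0, t (N + 1))) ⟨l1 (e ▸ (a4 0).1), l2 (a2 ▸ (a4 (N + 1)).2)⟩ (this N)
  obtain ⟨A, a1, a2, a3⟩ := build (G := G) hV x
  exact ⟨A, a1, fun e => hy (a2 y e), a3⟩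

theorem main (hD : ∀ a, ∃ b, (a, b) ∈ G) : List.TFAE
    [IsClosed G ∧ (∀ a b c, (a, b) ∈ G → (b, c) ∈ G → (a, c) ∈ G) ∧ HasShadowing G 2 2,
      IsClosed G ∧ ∀ x y, (x, y) ∉ G → ∃ A : Set X, IsClosed A ∧ y ∉ A ∧
        ∀ a b, a = x ∨ a ∈ A → (a, b) ∈ G → b ∈ interior A,
      ∃ F : Set (X × X), IsClosed F ∧ ∀ x y, (x, y) ∈ G ↔ ∀ V ∈ 𝓝ˢ (Set.diagonal X),
        TransGen (fun a b => ∃ z, (a, z) ∈ F ∧ (b, z) ∈ V) x y] := by
  tfae_have 1 → 2 := fun ⟨h1, h2, h3⟩ => ⟨h1, fun _ _ => of_shadow h1 h2 hD h3⟩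
  tfae_have 2 → 1 := fun ⟨h1, h2⟩ => ⟨h1, fun a b c hab hbc => by
    by_contra hn
    obtain ⟨A, -, k1, k2⟩ := h2 a c hn
    exact k1 (interior_subset (k2 b c (Or.inr (interior_subset (k2 a b (Or.inl rfl) hab))) hbc)),
    shadow_of h1 h2⟩
  tfae_have 2 → 3 := fun ⟨h1, h2⟩ => ⟨G, h1, fun x y =>
    ⟨fun h V hV => .single ⟨y, h, subset_of_mem_nhdsSet hV (mem_diagonal y)⟩, fun h => by
      by_contra hn
      obtain ⟨A, hA, hy, hin⟩ := h2 x y hn
      obtain ⟨N, hN, V, hV, hVA⟩ := trap h1 hA hin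
      exact hy (interior_subset (hVA x (Or.inr (mem_of_mem_nhds hN)) y (h V hV)))⟩⟩
  tfae_have 3 → 2 := fun ⟨F, hF, h⟩ => by
    let u : UniformSpace X := uniformSpaceOfCompactR1
    have hu : 𝓤 X = 𝓝ˢ (Set.diagonal X) := rfl
    have key : ∀ x y, (x, y) ∉ G → ∃ A : Set X, IsClosed A ∧ y ∉ A ∧ ∃ N ∈ 𝓝 x,
        ∀ a b, a ∈ A ∨ a ∈ N → (a, b) ∈ G → b ∈ interior A := fun x y hn => by
      rw [h] at hn
      push Not at hn
      obtain ⟨V, hV, hn⟩ := hn
      obtain ⟨A, a1, a2, a3⟩ := build (G := F) (hu ▸ hV) x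
      obtain ⟨N, hN, V', hV', k⟩ := trap hF a1 a3
      exact ⟨A, a1, fun e => hn (a2 y e), N, hN, fun a b ha hb => k a ha b ((h a b).1 hb V' hV')⟩
    refine ⟨isOpen_compl_iff.1 (isOpen_iff_mem_nhds.2 ?_), fun x y hn => ?_⟩
    · rintro ⟨x, y⟩ hn
      obtain ⟨A, a1, a2, N, hN, k⟩ := key x y hn
      exact mem_of_superset (prod_mem_nhds hN (a1.isOpen_compl.mem_nhds a2))
        fun p hp e => hp.2 (interior_subset (k _ _ (Or.inr hp.1) e))
    · obtain ⟨A, a1, a2, N, hN, k⟩ := key x y hn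
      exact ⟨A, a1, a2, fun a b ha => k a b
        (ha.elim (fun e => Or.inr (e ▸ mem_of_mem_nhds hN)) Or.inl)⟩
  tfae_finish

end Pool.Agent.P.MP_c44e76_an.Tr
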